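import Mathlib
import Pool.Agent.H.MP_b8e903_lc.A

namespace Pool.Agent.Results.MP_b8e903_lc.Disc

theorem result (V : Type) (r : V → V → Prop) (hi : ∀ x, ¬ r x x)
    (h2 : ∀ x, {y | r x y}.encard ≤ 2) :
    ∃ (M : Set V) (c : V → Bool), (∀ x ∈ M, ∀ y ∈ M, r x y → c x ≠ c y) ∧
      ∀ x, x ∈ M ∨ ∃ y ∈ M, r x y :=
  Pool.Agent.H.MP_b8e903_lc.main V r hi h2

end Pool.Agent.Results.MP_b8e903_lc.Disc
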